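import Pool.Agent.X19.RS.Sup

/-!
# MP_569b71_an (randomized SVD is optimal among all sketch-based algorithms): parts of the lower bound for the
randomized SVD. The reduction to `err` is done (`Sup.lean`).
-/

set_option autoImplicit false

open MeasureTheory ProbabilityTheory Filter Topology
open scoped ENNReal Matrix

namespace Pool.Agent.X19.RS

open Pool.Agent.X19.SS

/-- Gaussian matrices, as families of rows -/
noncomputable def gM (K : Type) [RCLike K] [MeasurableSpace K] [BorelSpace K] (n l : ℕ) :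
    Measure (Fin n → Fin l → K) := Measure.pi (fun _ : Fin n => gK K (Fin l))

/-- the diagonal matrix with `q` entries `s` and then entries `1` up to the index `r` -/
noncomputable def Sg (K : Type) [RCLike K] (d n q r : ℕ) (s : ℝ) : Matrix (Fin d) (Fin n) K :=
  Matrix.of fun i j => if i.val = j.val ∧ j.val < r then (if j.val < q then (s : K) else 1) else 0

/-- squared distance of the `j`-th unit vector to the range of `Sg * G` -/
noncomputable def del {K : Type} [RCLike K] {d n l : ℕ} (S : Matrix (Fin d) (Fin n) K) (G : Matrix (Fin n) (Fin l) K)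
    (j : Fin d) : ℝ≥0∞ := ⨅ c : Fin l → K, nsq (Pi.single j 1 - (S * G) *ᵥ c)

/-- the dual quantity -/
noncomputable def kap {K : Type} [RCLike K] {q m l : ℕ} (s : ℝ) (g : Fin q → Fin l → K) (h : Fin m → Fin l → K)
    (j : Fin q) : ℝ≥0∞ :=
  ⨆ (t : Fin q → K) (u : Fin m → K) (_ : t j = 1) (_ : ∑ i, t i • g i + ∑ k, u k • h k = 0),
    (nsq t + ENNReal.ofReal (s ^ 2) * nsq u)⁻¹

/-- its limit -/
noncomputable def lam {K : Type} [RCLike K] {q m l : ℕ} (g : Fin q → Fin l → K) (h : Fin m → Fin l → K)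
    (j : Fin q) : ℝ≥0∞ :=
  ⨆ (t : Fin q → K) (u : Fin m → K) (_ : t j = 1) (_ : ∑ i, t i • g i + ∑ k, u k • h k = 0), (nsq u)⁻¹

/-- (HR) Haar and Gaussian. `ν` = image of the Haar probability measure of the compact group `U(n)` (compactness:
`Pool.Agent.X19.RS.compactSpaceU`; see `Avg.lean` for the instances) under `V ↦ star V`, so that `ν` is invariant under
`V ↦ V W`. Proof: `∫ F(G) dG = ∫ F(V G) dG` for every unitary `V` (S_B2 for the columns of `G`), average over `V`,
Tonelli; a.e. `G` has linearly independent columns, so `G = W Om R` with `W` unitary, `R` invertible. -/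
def S_HR : Prop := ∀ (K : Type) [RCLike K] [MeasurableSpace K] [BorelSpace K] (n l : ℕ), l ≤ n →
  ∃ ν : Measure (Fin n → Fin n → K), IsProbabilityMeasure ν ∧
    (∀ᵐ V ∂ν, (Matrix.of V : Matrix (Fin n) (Fin n) K) ∈ Matrix.unitaryGroup (Fin n) K) ∧
    ∀ F : (Fin n → Fin l → K) → ℝ≥0∞, Measurable F →
      (∀ (X : Matrix (Fin n) (Fin l) K) (R : Matrix (Fin l) (Fin l) K), IsUnit R → F (X * R) = F X) →
      ∀ Om : Matrix (Fin n) (Fin l) K, Om.rank = l →
        ∫⁻ V, F ((Matrix.of V : Matrix (Fin n) (Fin n) K) * Om) ∂ν = ∫⁻ G, F G ∂(gM K n l)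

/-- (DET1) `err = ∑ over columns`, `∑_{j < r} del_j ≥ r - l` because the orthogonal projection onto the range has
trace at most `l`. -/
def S_DET1 : Prop := ∀ (K : Type) [RCLike K] (d e q m l : ℕ) (hd : q + m ≤ d) (s : ℝ), 1 ≤ s → l ≤ q + m →
  ∀ G : Matrix (Fin (q + m + e)) (Fin l) K,
  ((q + m - l : ℕ) : ℝ≥0∞) + ∑ j : Fin q, ENNReal.ofReal (s ^ 2 - 1) *
      del (Sg K d (q + m + e) q (q + m) s) G (Fin.castLE hd (Fin.castAdd m j)) ≤
    err (Sg K d (q + m + e) q (q + m) s) G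

/-- (DET2) duality: for `w` with `w^* S G = 0`: `del_j ≥ |w_j|^2 / |w|^2`; `w_i = conj (t_i) / s`, `w_{q+k} = conj u_k`. -/
def S_DET2 : Prop := ∀ (K : Type) [RCLike K] (d e q m l : ℕ) (hd : q + m ≤ d) (s : ℝ), 1 ≤ s →
  ∀ (G : Matrix (Fin (q + m + e)) (Fin l) K) (j : Fin q),
  kap s (fun i : Fin q => G (Fin.castAdd e (Fin.castAdd m i))) (fun k : Fin m => G (Fin.castAdd e (Fin.natAdd q k))) j ≤
    del (Sg K d (q + m + e) q (q + m) s) G (Fin.castLE hd (Fin.castAdd m j))

/-- (ROW) for fixed independent `g`. Choose an orthonormal basis `f_0, …, f_{l-1}` of `K^l` (gramSchmidt of the other `g`s,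
then `g j`) with the other `g`s in the span of `f_0..f_{q-1}` and `g j` in the span of `f_0..f_q`
(here `g : Fin (q+1)`), `|⟨f_q, g j⟩|^2 = dist2 = ρ^2`. The rows `U h_k` are again Gaussian, so the coefficient vectors
`C_a = (⟨f_a, h_k⟩)_k ∈ K^m` are independent Gaussian. The constraint says: `∑ u_k C_{a,k} = 0` for `a > q`,
`∑ u_k C_{q,k} = - ⟨f_q, g j⟩` (then `t` can be found). With `R₀` the residual of `C_q` modulo the span of the
`C_a, a > q` take `u = -⟨f_q, g j⟩ conj(R₀)/|R₀|^2` (complex conjugates as needed), `(nsq u)⁻¹ = |R₀|^2/ρ^2`, and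
`E |R₀|^2 = β (m - (l - 1 - q))` by `S_D3`. -/
def S_ROW : Prop := ∀ (K : Type) [RCLike K] [MeasurableSpace K] [BorelSpace K] (q m l : ℕ), q + 1 ≤ l →
  l ≤ q + 1 + m → ∀ (g : Fin (q + 1) → Fin l → K), LinearIndependent K g → ∀ j : Fin (q + 1),
  (Module.finrank ℝ K : ℝ≥0∞) * ((q + 1 + m - l : ℕ) : ℝ≥0∞) * (dist2 (fun i : Fin q => g (j.succAbove i)) (g j))⁻¹ ≤
    ∫⁻ h, lam g h j ∂(gM K m l)

/-- (TR) rank and tail of `Sg * V` -/
def S_TR : Prop := ∀ (K : Type) [RCLike K] (d e q m : ℕ), q + m ≤ d → ∀ s : ℝ, 1 ≤ s →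
  ∀ V ∈ Matrix.unitaryGroup (Fin (q + m + e)) K,
  (Sg K d (q + m + e) q (q + m) s * V).rank = q + m ∧ tailq q (Sg K d (q + m + e) q (q + m) s * V) ≤ m

/-- (ERR) measurability and invariances of `err` -/
def S_ERR : Prop := ∀ (K : Type) [RCLike K] [MeasurableSpace K] [BorelSpace K] (d n l : ℕ)
  (A : Matrix (Fin d) (Fin n) K),
  (Measurable fun X : Fin n → Fin l → K => err A (Matrix.of X)) ∧
  (∀ (X : Matrix (Fin n) (Fin l) K) (R : Matrix (Fin l) (Fin l) K), IsUnit R → err A (X * R) = err A X) ∧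
  (∀ (V : Matrix (Fin n) (Fin n) K), V ∈ Matrix.unitaryGroup (Fin n) K → ∀ X : Matrix (Fin n) (Fin l) K,
    err (A * V) X = err A (V * X))

end Pool.Agent.X19.RS
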