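import Pool.Agent.X19.RS.Lim

set_option autoImplicit false

open MeasureTheory ProbabilityTheory Filter Topology
open scoped ENNReal Matrix

namespace Pool.Agent.X19.RS

open Pool.Agent.X19.SS

theorem sum_liminf {q : ℕ} (A τ : ℝ≥0∞) (ρ : ℕ → Fin q → ℝ≥0∞)
    (h : ∀ j, τ ≤ liminf (fun n => ρ n j) atTop) :
    A + q * τ ≤ liminf (fun n => A + ∑ j, ρ n j) atTop := by
  have h1 : (q : ℝ≥0∞) * τ ≤ liminf (fun n => ∑ j, ρ n j) atTop := by
    have h2 : ∑ j, liminf (fun n => ρ n j) atTop ≤ liminf (fun n => ∑ j, ρ n j) atTop := by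
      have h3 := lintegral_liminf_le (μ := (Measure.count : Measure (Fin q))) (f := ρ) (u := atTop)
        (fun n => measurable_of_finite _)
      simp only [lintegral_count, tsum_fintype] at h3
      exact h3
    refine le_trans ?_ h2
    calc (q : ℝ≥0∞) * τ = ∑ _j : Fin q, τ := by simp
      _ ≤ _ := Finset.sum_le_sum fun j _ => h j
  have hmono : Monotone fun t : ℝ≥0∞ => A + t := by
    intro s t hst
    dsimp only
    gcongr
  have hcont : Continuous fun t : ℝ≥0∞ => A + t := by fun_prop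
  have h4 := hmono.map_liminf_of_continuousAt (F := atTop) (fun n => ∑ j, ρ n j) hcont.continuousAt
  have h5 : (fun t : ℝ≥0∞ => A + t) ((q : ℝ≥0∞) * τ) ≤
      (fun t : ℝ≥0∞ => A + t) (liminf (fun n => ∑ j, ρ n j) atTop) := hmono h1
  exact le_trans h5 (le_of_eq h4)

section
variable {K : Type} [RCLike K] [MeasurableSpace K] [BorelSpace K]

theorem lim_err (hD1 : S_D1) (hD2 : S_D2) (hDET1 : S_DET1) (hDET2 : S_DET2) (hROW : S_ROW) {d e q m l : ℕ}
    (hd : q + 1 + m ≤ d) (hq : q + 1 ≤ l) (hl : l ≤ q + 1 + m)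
    (hc : 2 + Module.finrank ℝ K * q < Module.finrank ℝ K * l) (C : ℝ≥0∞)
    (hC : ∀ n : ℕ, ∫⁻ G, err (Sg K d (q + 1 + m + e) (q + 1) (q + 1 + m) ((n : ℝ) + 1)) (Matrix.of G)
      ∂(gM K (q + 1 + m + e) l) ≤ C) :
    ((q + 1 + m - l : ℕ) : ℝ≥0∞) + ((q + 1 : ℕ) : ℝ≥0∞) * ((Module.finrank ℝ K : ℝ≥0∞) *
      ((q + 1 + m - l : ℕ) : ℝ≥0∞) *
      ENNReal.ofReal (1 / ((Module.finrank ℝ K : ℝ) * ((l : ℝ) - q) - 2))) ≤ C := by
  have hP : IsProbabilityMeasure (gM K (q + 1 + m + e) l) := by unfold gM; infer_instance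
  have h1 : ∀ n : ℕ, ((q + 1 + m - l : ℕ) : ℝ≥0∞) + ∑ j : Fin (q + 1), ∫⁻ G,
      ENNReal.ofReal (((n : ℝ) + 1) ^ 2 - 1) *
      del (Sg K d (q + 1 + m + e) (q + 1) (q + 1 + m) ((n : ℝ) + 1)) (Matrix.of G)
        (Fin.castLE hd (Fin.castAdd m j)) ∂(gM K (q + 1 + m + e) l) ≤ C := by
    intro n
    refine le_trans ?_ (hC n)
    rw [← lintegral_finsetSum _ (fun j _ => (del_meas _ _).const_mul _)]
    have hcst : ((q + 1 + m - l : ℕ) : ℝ≥0∞) =
        ∫⁻ _, ((q + 1 + m - l : ℕ) : ℝ≥0∞) ∂(gM K (q + 1 + m + e) l) := by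
      rw [lintegral_const, measure_univ, mul_one]
    rw [hcst, ← lintegral_add_left measurable_const]
    refine lintegral_mono fun G => ?_
    exact hDET1 K d e (q + 1) m l hd ((n : ℝ) + 1) (by linarith [(Nat.cast_nonneg n : (0:ℝ) ≤ n)]) hl (Matrix.of G)
  refine le_trans (sum_liminf _ _ _ (fun j => coord (e := e) hD1 hD2 hDET2 hROW hd hq hl hc j)) ?_
  refine le_trans (liminf_le_liminf (Eventually.of_forall h1)) ?_
  simp

theorem main_bound (hD1 : S_D1) (hD2 : S_D2) (hDET1 : S_DET1) (hDET2 : S_DET2) (hROW : S_ROW) (hHR : S_HR)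
    (hTR : S_TR) (hERR : S_ERR) {d e q m l : ℕ}
    (hd : q + 1 + m ≤ d) (hq : q + 1 ≤ l) (hl : l ≤ q + 1 + m)
    (hc : 2 + Module.finrank ℝ K * q < Module.finrank ℝ K * l)
    {Θ : Type} [MeasurableSpace Θ] (μ : Measure Θ) [IsProbabilityMeasure μ]
    (Om : Θ → Matrix (Fin (q + 1 + m + e)) (Fin l) K)
    (hOm : Measurable fun θ => fun (i : Fin (q + 1 + m + e)) (j : Fin l) => Om θ i j)
    (hrk : ∀ᵐ θ ∂μ, (Om θ).rank = l) (C : ℝ≥0∞) (hC : C ≠ ∞) (h : worstSVD d μ Om (q + 1) (q + 1 + m) ≤ C) :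
    ((q + 1 + m - l : ℕ) : ℝ≥0∞) + ((q + 1 : ℕ) : ℝ≥0∞) * ((Module.finrank ℝ K : ℝ≥0∞) *
      ((q + 1 + m - l : ℕ) : ℝ≥0∞) *
      ENNReal.ofReal (1 / ((Module.finrank ℝ K : ℝ) * ((l : ℝ) - q) - 2))) ≤ C * m := by
  refine lim_err (e := e) hD1 hD2 hDET1 hDET2 hROW hd hq hl hc (C * m) fun n => ?_
  obtain ⟨ν, hν, hVu, hF⟩ := hHR K (q + 1 + m + e) l (by omega)
  set A := Sg K d (q + 1 + m + e) (q + 1) (q + 1 + m) ((n : ℝ) + 1) with hA
  obtain ⟨hEm, hEr, hEu⟩ := hERR K d (q + 1 + m + e) l A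
  have h1 : ∀ᵐ V ∂ν, ∫⁻ θ, err A (Matrix.of V * Om θ) ∂μ ≤ C * m := by
    filter_upwards [hVu] with V hV
    obtain ⟨hr, ht⟩ := hTR K d e (q + 1) m hd ((n : ℝ) + 1) (by linarith [(Nat.cast_nonneg n : (0:ℝ) ≤ n)])
      (Matrix.of V) hV
    have h2 : (∫⁻ θ, err (A * Matrix.of V) (Om θ) ∂μ) / tailq (q + 1) (A * Matrix.of V) ≤ C := by
      refine le_trans ?_ h
      unfold worstSVD
      refine le_iSup_of_le (A * Matrix.of V) ?_
      refine le_iSup_of_le ?_ ?_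
      · exact hr
      · exact le_rfl
    have h3 : ∀ θ, err (A * Matrix.of V) (Om θ) = err A (Matrix.of V * Om θ) := fun θ => hEu (Matrix.of V) hV (Om θ)
    simp_rw [h3] at h2
    rw [ENNReal.div_le_iff_le_mul (Or.inr hC)
      (Or.inl (ne_top_of_le_ne_top (ENNReal.natCast_ne_top m) ht))] at h2
    exact h2.trans (mul_le_mul_right ht _)
  have h4 : ∫⁻ V, ∫⁻ θ, err A (Matrix.of V * Om θ) ∂μ ∂ν ≤ C * m := by
    calc ∫⁻ V, ∫⁻ θ, err A (Matrix.of V * Om θ) ∂μ ∂ν ≤ ∫⁻ _, C * m ∂ν := lintegral_mono_ae h1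
      _ = C * m := by rw [lintegral_const, measure_univ, mul_one]
  have hmeas : Measurable fun p : (Fin (q + 1 + m + e) → Fin (q + 1 + m + e) → K) × Θ =>
      err A (Matrix.of p.1 * Om p.2) := by
    have h0 : Measurable fun p : (Fin (q + 1 + m + e) → Fin (q + 1 + m + e) → K) × Θ =>
        ((fun i k => (Matrix.of p.1 * Om p.2) i k) : Fin (q + 1 + m + e) → Fin l → K) := by
      refine measurable_pi_lambda _ fun i => measurable_pi_lambda _ fun k => ?_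
      simp only [Matrix.mul_apply, Matrix.of_apply]
      refine Finset.measurable_sum _ fun j _ => ?_
      have h1 : Measurable fun p : (Fin (q + 1 + m + e) → Fin (q + 1 + m + e) → K) × Θ => Om p.2 j k :=
        ((measurable_pi_apply k).comp ((measurable_pi_apply j).comp hOm)).comp measurable_snd
      have h2 : Measurable fun p : (Fin (q + 1 + m + e) → Fin (q + 1 + m + e) → K) × Θ => p.1 i j := by fun_prop
      exact h2.mul h1
    exact hEm.comp h0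
  rw [lintegral_lintegral_swap hmeas.aemeasurable] at h4
  have h5 : ∫⁻ θ, ∫⁻ V, err A (Matrix.of V * Om θ) ∂ν ∂μ =
      ∫⁻ _, (∫⁻ G, err A (Matrix.of G) ∂(gM K (q + 1 + m + e) l)) ∂μ := by
    refine lintegral_congr_ae ?_
    filter_upwards [hrk] with θ hθ
    exact hF (fun X => err A (Matrix.of X)) hEm hEr (Om θ) hθ
  rw [h5, lintegral_const, measure_univ, mul_one] at h4
  exact h4

end

/-- arithmetic: from the limit inequality to the bound -/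
theorem arith2 (b m l q α : ℕ) (hb : b + α = 2) (hb1 : 1 ≤ b) (hql : q + 1 + α < l) (hl : l ≤ q + 1 + m) (C : ℝ≥0∞)
    (h : ((q + 1 + m - l : ℕ) : ℝ≥0∞) + ((q + 1 : ℕ) : ℝ≥0∞) * ((b : ℝ≥0∞) *
      ((q + 1 + m - l : ℕ) : ℝ≥0∞) * ENNReal.ofReal (1 / ((b : ℝ) * ((l : ℝ) - q) - 2))) ≤ C * m) :
    ENNReal.ofReal ((((q + 1 + m : ℕ) : ℝ) - l) / (((q + 1 + m : ℕ) : ℝ) - ((q + 1 : ℕ) : ℝ)) *
      (1 + ((q + 1 : ℕ) : ℝ) / ((l : ℝ) - ((q + 1 : ℕ) : ℝ) - α))) ≤ C := by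
  by_cases hC : C = ∞
  · rw [hC]; exact le_top
  have hm : 1 ≤ m := by omega
  have hlr : ((q : ℝ) + 1) + α < l := by exact_mod_cast hql
  have hbr : (b : ℝ) + α = 2 := by exact_mod_cast hb
  have hα0 : (0 : ℝ) ≤ α := Nat.cast_nonneg _
  have hq0 : (0 : ℝ) ≤ q := Nat.cast_nonneg _
  have hm0 : (0 : ℝ) < m := by exact_mod_cast hm
  have hpos : 0 < (l : ℝ) - (q + 1) - α := by linarith
  have hτ : (b : ℝ) * (1 / ((b : ℝ) * ((l : ℝ) - q) - 2)) = 1 / ((l : ℝ) - (q + 1) - α) := by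
    have hcases : b = 1 ∨ b = 2 := by omega
    rcases hcases with rfl | rfl
    · have : (α : ℝ) = 1 := by push_cast at hbr; linarith
      rw [this]
      push_cast
      have h2 : (1 : ℝ) * ((l : ℝ) - q) - 2 = (l : ℝ) - (q + 1) - 1 := by ring
      rw [h2]; ring
    · have : (α : ℝ) = 0 := by push_cast at hbr; linarith
      rw [this] at hpos ⊢
      push_cast
      have h2 : (2 : ℝ) * ((l : ℝ) - q) - 2 = 2 * ((l : ℝ) - (q + 1) - 0) := by ring
      rw [h2]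
      field_simp
  have hb0 : (0 : ℝ) ≤ b := Nat.cast_nonneg _
  have hD0 : 0 ≤ 1 / ((b : ℝ) * ((l : ℝ) - q) - 2) := by
    by_contra hneg
    push Not at hneg
    have h3 : (b : ℝ) * (1 / ((b : ℝ) * ((l : ℝ) - q) - 2)) ≤ 0 := mul_nonpos_of_nonneg_of_nonpos hb0 hneg.le
    rw [hτ] at h3
    exact absurd h3 (not_le.2 (by positivity))
  have hCr : C = ENNReal.ofReal C.toReal := (ENNReal.ofReal_toReal hC).symm
  have hc0 : 0 ≤ C.toReal := ENNReal.toReal_nonneg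
  have hrl : ((q + 1 + m - l : ℕ) : ℝ) = (q : ℝ) + 1 + m - l := by
    rw [Nat.cast_sub hl]; push_cast; ring
  have hrl0 : (0 : ℝ) ≤ (q : ℝ) + 1 + m - l := by rw [← hrl]; exact Nat.cast_nonneg _
  have hform : ((q + 1 + m - l : ℕ) : ℝ≥0∞) + ((q + 1 : ℕ) : ℝ≥0∞) * ((b : ℝ≥0∞) *
      ((q + 1 + m - l : ℕ) : ℝ≥0∞) * ENNReal.ofReal (1 / ((b : ℝ) * ((l : ℝ) - q) - 2))) =
      ENNReal.ofReal (((q : ℝ) + 1 + m - l) + ((q : ℝ) + 1) * (((q : ℝ) + 1 + m - l) *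
        (1 / ((l : ℝ) - (q + 1) - α)))) := by
    rw [← hτ, ← ENNReal.ofReal_natCast (q + 1 + m - l), ← ENNReal.ofReal_natCast (q + 1), ← ENNReal.ofReal_natCast b,
      hrl, ← ENNReal.ofReal_mul hb0, ← ENNReal.ofReal_mul (by positivity), ← ENNReal.ofReal_mul (by positivity),
      ← ENNReal.ofReal_add (by positivity) (by positivity)]
    congr 1
    push_cast
    ring
  rw [hform, hCr, ← ENNReal.ofReal_natCast m, ← ENNReal.ofReal_mul hc0,
    ENNReal.ofReal_le_ofReal_iff (by positivity)] at h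
  rw [hCr]
  refine ENNReal.ofReal_le_ofReal ?_
  push_cast
  have h5 : ((q : ℝ) + 1 + m - ((q : ℝ) + 1)) = m := by ring
  rw [h5, div_mul_eq_mul_div, div_le_iff₀ hm0]
  refine le_trans (le_of_eq ?_) h
  ring

end Pool.Agent.X19.RS
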