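import Pool.Agent.X19.RS.Red

set_option autoImplicit false

open MeasureTheory
open scoped ENNReal Matrix

namespace Pool.Agent.X19.RS

open Pool.Agent.X19.SS

section
variable {K : Type} [RCLike K] [MeasurableSpace K] [BorelSpace K]

noncomputable local instance (m : ℕ) : MeasurableSpace (UG K m) := borel _

local instance (m : ℕ) : BorelSpace (UG K m) := ⟨rfl⟩

theorem frob2_meas {m k : ℕ} : Measurable fun M : Fin m → Fin k → K => frob2 (Matrix.of M) := by
  unfold frob2
  refine Finset.measurable_sum _ fun i _ => Finset.measurable_sum _ fun j _ => ?_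
  simp only [Matrix.of_apply]
  exact (((measurable_pi_apply j).comp (measurable_pi_apply i)).enorm).pow_const 2

theorem entry_meas {m : ℕ} (i j : Fin m) : Measurable fun U : UG K m => (U : Matrix (Fin m) (Fin m) K) i j := by
  have h : Continuous fun U : UG K m => (U : Matrix (Fin m) (Fin m) K) i j :=
    (continuous_apply_apply i j).comp continuous_subtype_val
  exact h.measurable

theorem N_meas {d n l : ℕ} (ALG : Matrix (Fin n) (Fin l) K → Matrix (Fin d) (Fin l) K →
    Matrix (Fin n) (Fin l) K → Matrix (Fin d) (Fin n) K)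
    (hALG : Measurable fun s : (Fin n → Fin l → K) × (Fin d → Fin l → K) × (Fin n → Fin l → K) =>
      fun (i : Fin d) (k : Fin n) => ALG (Matrix.of s.1) (Matrix.of s.2.1) (Matrix.of s.2.2) i k)
    (A : Matrix (Fin d) (Fin n) K) {Θ : Type} [MeasurableSpace Θ] (Om : Θ → Matrix (Fin n) (Fin l) K)
    (hOm : Measurable fun θ => fun (i : Fin n) (j : Fin l) => Om θ i j) :
    Measurable fun s : Θ × UG K d => N ALG A (Om s.1) (s.2 : Matrix (Fin d) (Fin d) K) := by
  have hO : ∀ i j, Measurable fun s : Θ × UG K d => Om s.1 i j := fun i j =>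
    ((measurable_pi_apply j).comp ((measurable_pi_apply i).comp hOm)).comp measurable_fst
  have hUs : ∀ i j, Measurable fun s : Θ × UG K d => ((s.2 : Matrix (Fin d) (Fin d) K)ᴴ) i j := by
    intro i j
    simp only [Matrix.conjTranspose_apply]
    exact RCLike.continuous_conj.measurable.comp ((entry_meas j i).comp measurable_snd)
  have hUA : ∀ i j, Measurable fun s : Θ × UG K d => ((s.2 : Matrix (Fin d) (Fin d) K)ᴴ * A) i j := by
    intro i j
    simp only [Matrix.mul_apply]
    exact Finset.measurable_sum _ fun k _ => (hUs i k).mul_const _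
  have hUAO : ∀ i j, Measurable fun s : Θ × UG K d => ((s.2 : Matrix (Fin d) (Fin d) K)ᴴ * A * Om s.1) i j := by
    intro i j
    simp only [Matrix.mul_apply (M := (_ : Matrix (Fin d) (Fin n) K))]
    exact Finset.measurable_sum _ fun k _ => (hUA i k).mul (hO k j)
  have hZ : ∀ i j, Measurable fun s : Θ × UG K d => (((s.2 : Matrix (Fin d) (Fin d) K)ᴴ * A)ᴴ *
      ((s.2 : Matrix (Fin d) (Fin d) K)ᴴ * A * Om s.1)) i j := by
    intro i j
    simp only [Matrix.mul_apply (M := (_ : Matrix (Fin n) (Fin d) K)), Matrix.conjTranspose_apply]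
    exact Finset.measurable_sum _ fun k _ =>
      (RCLike.continuous_conj.measurable.comp (hUA k i)).mul (hUAO k j)
  have h1 : Measurable fun s : Θ × UG K d => ((fun (i : Fin n) (j : Fin l) => Om s.1 i j,
      (fun i j => ((s.2 : Matrix (Fin d) (Fin d) K)ᴴ * A * Om s.1) i j,
       fun i j => (((s.2 : Matrix (Fin d) (Fin d) K)ᴴ * A)ᴴ *
      ((s.2 : Matrix (Fin d) (Fin d) K)ᴴ * A * Om s.1)) i j)) :
      (Fin n → Fin l → K) × (Fin d → Fin l → K) × (Fin n → Fin l → K)) := by
    refine Measurable.prodMk ?_ (Measurable.prodMk ?_ ?_)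
    · exact measurable_pi_lambda _ fun i => measurable_pi_lambda _ fun j => hO i j
    · exact measurable_pi_lambda _ fun i => measurable_pi_lambda _ fun j => hUAO i j
    · exact measurable_pi_lambda _ fun i => measurable_pi_lambda _ fun j => hZ i j
  have h2 := hALG.comp h1
  have h3 : Measurable fun s : Θ × UG K d => fun (i : Fin d) (j : Fin n) =>
      ((s.2 : Matrix (Fin d) (Fin d) K)ᴴ * A) i j - ALG (Om s.1) ((s.2 : Matrix (Fin d) (Fin d) K)ᴴ * A * Om s.1)
        (((s.2 : Matrix (Fin d) (Fin d) K)ᴴ * A)ᴴ * ((s.2 : Matrix (Fin d) (Fin d) K)ᴴ * A * Om s.1)) i j := by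
    refine measurable_pi_lambda _ fun i => measurable_pi_lambda _ fun j => ?_
    exact (hUA i j).sub ((measurable_pi_apply j).comp ((measurable_pi_apply i).comp h2))
  exact frob2_meas.comp h3

/-- the average over the unitary group -/
theorem avg {d n l : ℕ} (ALG : Matrix (Fin n) (Fin l) K → Matrix (Fin d) (Fin l) K →
    Matrix (Fin n) (Fin l) K → Matrix (Fin d) (Fin n) K)
    (hALG : Measurable fun s : (Fin n → Fin l → K) × (Fin d → Fin l → K) × (Fin n → Fin l → K) =>
      fun (i : Fin d) (k : Fin n) => ALG (Matrix.of s.1) (Matrix.of s.2.1) (Matrix.of s.2.2) i k)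
    (A : Matrix (Fin d) (Fin n) K) {Θ : Type} [MeasurableSpace Θ] (μ : Measure Θ) [IsProbabilityMeasure μ]
    (Om : Θ → Matrix (Fin n) (Fin l) K)
    (hOm : Measurable fun θ => fun (i : Fin n) (j : Fin l) => Om θ i j) :
    ∫⁻ θ, err A (Om θ) ∂μ ≤ ⨆ U : UG K d, ∫⁻ θ, N ALG A (Om θ) (U : Matrix (Fin d) (Fin d) K) ∂μ := by
  set ν : Measure (UG K d) := Measure.haarMeasure ⊤ with hν
  haveI : IsProbabilityMeasure ν := ⟨by
    rw [hν]
    have := Measure.haarMeasure_self (K₀ := (⊤ : TopologicalSpace.PositiveCompacts (UG K d)))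
    simpa using this⟩
  have hm := N_meas ALG hALG A Om hOm
  have h1 : ∀ θ, err A (Om θ) ≤ ∫⁻ U, N ALG A (Om θ) ((U : UG K d) : Matrix (Fin d) (Fin d) K) ∂ν := by
    intro θ
    obtain ⟨W, hW⟩ := N_pair ALG A (Om θ)
    have hmθ : Measurable fun U : UG K d => N ALG A (Om θ) (U : Matrix (Fin d) (Fin d) K) := by
      have h := hm.comp (measurable_prodMk_left (x := θ))
      exact h
    have h2 : ∫⁻ U, N ALG A (Om θ) ((W * U : UG K d) : Matrix (Fin d) (Fin d) K) ∂ν =
        ∫⁻ U, N ALG A (Om θ) ((U : UG K d) : Matrix (Fin d) (Fin d) K) ∂ν :=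
      lintegral_mul_left_eq_self (fun U : UG K d => N ALG A (Om θ) (U : Matrix (Fin d) (Fin d) K)) W
    have h3 : 2 * err A (Om θ) ≤ 2 * ∫⁻ U, N ALG A (Om θ) ((U : UG K d) : Matrix (Fin d) (Fin d) K) ∂ν := by
      calc 2 * err A (Om θ) = ∫⁻ _ : UG K d, 2 * err A (Om θ) ∂ν := by
            rw [lintegral_const, measure_univ, mul_one]
        _ ≤ ∫⁻ U, (N ALG A (Om θ) ((U : UG K d) : Matrix (Fin d) (Fin d) K) +
              N ALG A (Om θ) ((W * U : UG K d) : Matrix (Fin d) (Fin d) K)) ∂ν := lintegral_mono hW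
        _ = _ := by rw [lintegral_add_left hmθ, h2, two_mul]
    rwa [ENNReal.mul_le_mul_iff_right (by norm_num) (by norm_num)] at h3
  calc ∫⁻ θ, err A (Om θ) ∂μ ≤ ∫⁻ θ, ∫⁻ U, N ALG A (Om θ) ((U : UG K d) : Matrix (Fin d) (Fin d) K) ∂ν ∂μ :=
        lintegral_mono h1
    _ = ∫⁻ U, ∫⁻ θ, N ALG A (Om θ) ((U : UG K d) : Matrix (Fin d) (Fin d) K) ∂μ ∂ν := by
        rw [lintegral_lintegral_swap]
        exact hm.aemeasurable
    _ ≤ ∫⁻ _ : UG K d, (⨆ U : UG K d, ∫⁻ θ, N ALG A (Om θ) (U : Matrix (Fin d) (Fin d) K) ∂μ) ∂ν :=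
        lintegral_mono fun U => le_iSup (fun U : UG K d => ∫⁻ θ, N ALG A (Om θ) (U : Matrix (Fin d) (Fin d) K) ∂μ) U
    _ = _ := by rw [lintegral_const, measure_univ, mul_one]

end

end Pool.Agent.X19.RS
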