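import Pool.Agent.X19.RS.Stm
import Pool.Agent.X19.SS.E

set_option autoImplicit false

open MeasureTheory ProbabilityTheory Filter Topology
open scoped ENNReal Matrix

namespace Pool.Agent.X19.RS

open Pool.Agent.X19.SS

theorem lintegral_append {X : Type} [MeasurableSpace X] (μ : Measure X) [IsProbabilityMeasure μ] (a b : ℕ)
    (F : (Fin (a + b) → X) → ℝ≥0∞) (hF : Measurable F) :
    ∫⁻ G, F G ∂(Measure.pi fun _ => μ) =
      ∫⁻ x, ∫⁻ y, F (Fin.append x y) ∂(Measure.pi fun _ : Fin b => μ) ∂(Measure.pi fun _ : Fin a => μ) := by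
  have h1 := measurePreserving_sumPiEquivProdPi_symm (ι := Fin a) (ι' := Fin b) (X := fun _ => X) (fun _ => μ)
  have h2 := measurePreserving_piCongrLeft (α := fun _ : Fin (a + b) => X) (fun _ => μ) (finSumFinEquiv (m := a) (n := b))
  have h3 := h2.comp h1
  have h4 := h3.lintegral_comp hF
  rw [← h4, lintegral_prod]
  · refine lintegral_congr fun x => lintegral_congr fun y => ?_
    congr 1
    funext i
    refine Fin.addCases (fun k => ?_) (fun k => ?_) i
    · rw [Fin.append_left]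
      have := MeasurableEquiv.piCongrLeft_apply_apply (β := fun _ : Fin (a + b) => X) (finSumFinEquiv (m := a) (n := b))
        ((MeasurableEquiv.sumPiEquivProdPi (fun _ : Fin a ⊕ Fin b => X)).symm (x, y)) (Sum.inl k)
      rw [finSumFinEquiv_apply_left] at this
      exact this
    · rw [Fin.append_right]
      have := MeasurableEquiv.piCongrLeft_apply_apply (β := fun _ : Fin (a + b) => X) (finSumFinEquiv (m := a) (n := b))
        ((MeasurableEquiv.sumPiEquivProdPi (fun _ : Fin a ⊕ Fin b => X)).symm (x, y)) (Sum.inr k)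
      rw [finSumFinEquiv_apply_right] at this
      exact this
  · exact (hF.comp h3.measurable).aemeasurable

theorem append_meas {X : Type} [MeasurableSpace X] {a b : ℕ} :
    Measurable fun p : (Fin a → X) × (Fin b → X) => Fin.append p.1 p.2 := by
  refine measurable_pi_lambda _ fun i => ?_
  refine Fin.addCases (fun k => ?_) (fun k => ?_) i
  · simp only [Fin.append_left]; fun_prop
  · simp only [Fin.append_right]; fun_prop

section
variable {K : Type} [RCLike K] [MeasurableSpace K] [BorelSpace K]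

theorem kap_lim {q m l : ℕ} (g : Fin q → Fin l → K) (h : Fin m → Fin l → K) (j : Fin q) :
    lam g h j ≤ liminf (fun n : ℕ => ENNReal.ofReal (((n : ℝ) + 1) ^ 2 - 1) * kap ((n : ℝ) + 1) g h j) atTop := by
  unfold lam
  refine iSup_le fun t => iSup_le fun u => iSup_le fun ht => iSup_le fun hc => ?_
  have hle : ∀ n : ℕ, ENNReal.ofReal (((n : ℝ) + 1) ^ 2 - 1) *
      (nsq t + ENNReal.ofReal (((n : ℝ) + 1) ^ 2) * nsq u)⁻¹ ≤
      ENNReal.ofReal (((n : ℝ) + 1) ^ 2 - 1) * kap ((n : ℝ) + 1) g h j := by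
    intro n
    refine mul_le_mul_right ?_ _
    unfold kap
    exact le_iSup_of_le t (le_iSup_of_le u (le_iSup_of_le ht (le_iSup_of_le hc le_rfl)))
  refine le_trans ?_ (liminf_le_liminf (Eventually.of_forall hle))
  -- the limit
  set a : ℝ := ∑ i, ‖t i‖ ^ 2 with ha
  set b : ℝ := ∑ i, ‖u i‖ ^ 2 with hb
  have ha1 : 1 ≤ a := by
    have h3 : ‖t j‖ ^ 2 ≤ a := Finset.single_le_sum (f := fun i => ‖t i‖ ^ 2) (fun i _ => by positivity) (Finset.mem_univ _)
    rw [ht] at h3; simpa using h3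
  have hb0 : 0 ≤ b := Finset.sum_nonneg fun i _ => by positivity
  have hta : nsq t = ENNReal.ofReal a := nsq_eq t
  have hub : nsq u = ENNReal.ofReal b := nsq_eq u
  have hform : ∀ n : ℕ, ENNReal.ofReal (((n : ℝ) + 1) ^ 2 - 1) *
      (nsq t + ENNReal.ofReal (((n : ℝ) + 1) ^ 2) * nsq u)⁻¹ =
      ENNReal.ofReal ((((n : ℝ) + 1) ^ 2 - 1) / (a + ((n : ℝ) + 1) ^ 2 * b)) := by
    intro n
    rw [hta, hub, ← ENNReal.ofReal_mul (by positivity), ← ENNReal.ofReal_add (by positivity) (by positivity),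
      ← ENNReal.ofReal_inv_of_pos (by positivity), ← ENNReal.ofReal_mul (by nlinarith [(Nat.cast_nonneg n : (0:ℝ) ≤ n)])]
    rfl
  simp only [hform]
  have hsq : Tendsto (fun n : ℕ => ((n : ℝ) + 1) ^ 2) atTop atTop :=
    (tendsto_pow_atTop (two_ne_zero)).comp (tendsto_atTop_add_const_right _ _ tendsto_natCast_atTop_atTop)
  by_cases hb1 : b = 0
  · rw [hub, hb1]
    have h5 : Tendsto (fun n : ℕ => ENNReal.ofReal ((((n : ℝ) + 1) ^ 2 - 1) / (a + ((n : ℝ) + 1) ^ 2 * 0))) atTop (𝓝 ⊤) := by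
      refine ENNReal.tendsto_ofReal_nhds_top.2 ?_
      simp only [mul_zero, add_zero]
      exact (tendsto_atTop_add_const_right _ (-1) hsq).atTop_div_const (by linarith)
    rw [h5.liminf_eq]
    exact le_top
  · have hbp : 0 < b := lt_of_le_of_ne hb0 (Ne.symm hb1)
    have h6 : Tendsto (fun n : ℕ => (((n : ℝ) + 1) ^ 2 - 1) / (a + ((n : ℝ) + 1) ^ 2 * b)) atTop (𝓝 (1 / b)) := by
      have h7 : Tendsto (fun n : ℕ => (((n : ℝ) + 1) ^ 2)⁻¹) atTop (𝓝 0) := tendsto_inv_atTop_zero.comp hsq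
      have h8 : Tendsto (fun n : ℕ => (1 - (((n : ℝ) + 1) ^ 2)⁻¹) / (a * (((n : ℝ) + 1) ^ 2)⁻¹ + b)) atTop
          (𝓝 ((1 - 0) / (a * 0 + b))) := by
        refine Tendsto.div (tendsto_const_nhds.sub h7) ((tendsto_const_nhds.mul h7).add tendsto_const_nhds) ?_
        simp [hb1]
      have h9 : (1 - 0) / (a * 0 + b) = 1 / b := by simp
      rw [h9] at h8
      refine h8.congr fun n => ?_
      have h10 : (0 : ℝ) < ((n : ℝ) + 1) ^ 2 := by positivity
      field_simp
    have h11 := (ENNReal.tendsto_ofReal h6)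
    rw [h11.liminf_eq, hub, ← ENNReal.ofReal_inv_of_pos hbp, one_div]

theorem del_meas {d n l : ℕ} (S : Matrix (Fin d) (Fin n) K) (j : Fin d) :
    Measurable fun G : Fin n → Fin l → K => del S (Matrix.of G) j := by
  unfold del
  have hu : UpperSemicontinuous fun G : Fin n → Fin l → K =>
      ⨅ c : Fin l → K, nsq (Pi.single j 1 - (S * Matrix.of G) *ᵥ c) := by
    refine upperSemicontinuous_iInf fun c => Continuous.upperSemicontinuous ?_
    unfold nsq
    refine continuous_finsetSum _ fun i _ => ?_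
    have : Continuous fun G : Fin n → Fin l → K => ((Pi.single j 1 - (S * Matrix.of G) *ᵥ c : Fin d → K)) i := by
      simp only [Pi.sub_apply, Matrix.mulVec, dotProduct, Matrix.mul_apply, Matrix.of_apply]
      fun_prop
    exact (ENNReal.continuous_pow 2).comp this.enorm
  exact hu.measurable

/-- one coordinate -/
theorem coord (hD1 : S_D1) (hD2 : S_D2) (hDET2 : S_DET2) (hROW : S_ROW) {d e q m l : ℕ} (hd : q + 1 + m ≤ d)
    (hq : q + 1 ≤ l) (hl : l ≤ q + 1 + m) (hc : 2 + Module.finrank ℝ K * q < Module.finrank ℝ K * l)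
    (j : Fin (q + 1)) :
    (Module.finrank ℝ K : ℝ≥0∞) * ((q + 1 + m - l : ℕ) : ℝ≥0∞) *
      ENNReal.ofReal (1 / ((Module.finrank ℝ K : ℝ) * ((l : ℝ) - q) - 2)) ≤
    liminf (fun n : ℕ => ∫⁻ G, ENNReal.ofReal (((n : ℝ) + 1) ^ 2 - 1) *
      del (Sg K d (q + 1 + m + e) (q + 1) (q + 1 + m) ((n : ℝ) + 1)) (Matrix.of G)
        (Fin.castLE hd (Fin.castAdd m j)) ∂(gM K (q + 1 + m + e) l)) atTop := by
  have hmeas : ∀ n : ℕ, Measurable fun G : Fin (q + 1 + m + e) → Fin l → K =>
      ENNReal.ofReal (((n : ℝ) + 1) ^ 2 - 1) *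
      del (Sg K d (q + 1 + m + e) (q + 1) (q + 1 + m) ((n : ℝ) + 1)) (Matrix.of G)
        (Fin.castLE hd (Fin.castAdd m j)) := fun n => (del_meas _ _).const_mul _
  refine le_trans ?_ (lintegral_liminf_le hmeas)
  set M : (Fin (q + 1 + m + e) → Fin l → K) → ℝ≥0∞ := fun G => liminf (fun n : ℕ =>
    ENNReal.ofReal (((n : ℝ) + 1) ^ 2 - 1) *
      del (Sg K d (q + 1 + m + e) (q + 1) (q + 1 + m) ((n : ℝ) + 1)) (Matrix.of G)
        (Fin.castLE hd (Fin.castAdd m j))) atTop with hM
  have hMm : Measurable M := Measurable.liminf hmeas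
  have hMl : ∀ (g : Fin (q + 1) → Fin l → K) (h : Fin m → Fin l → K) (w : Fin e → Fin l → K),
      lam g h j ≤ M (Fin.append (Fin.append g h) w) := by
    intro g h w
    refine le_trans (kap_lim g h j) (liminf_le_liminf (Eventually.of_forall fun n => ?_))
    refine mul_le_mul_right ?_ _
    have h1 := hDET2 K d e (q + 1) m l hd ((n : ℝ) + 1) (by linarith [(Nat.cast_nonneg n : (0:ℝ) ≤ n)])
      (Matrix.of (Fin.append (Fin.append g h) w)) j
    have e1 : (fun i : Fin (q + 1) => (Matrix.of (Fin.append (Fin.append g h) w)) (Fin.castAdd e (Fin.castAdd m i))) = g := by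
      funext i
      show Fin.append (Fin.append g h) w (Fin.castAdd e (Fin.castAdd m i)) = g i
      rw [Fin.append_left, Fin.append_left]
    have e2 : (fun k : Fin m => (Matrix.of (Fin.append (Fin.append g h) w)) (Fin.castAdd e (Fin.natAdd (q + 1) k))) = h := by
      funext i
      show Fin.append (Fin.append g h) w (Fin.castAdd e (Fin.natAdd (q + 1) i)) = h i
      rw [Fin.append_left, Fin.append_right]
    rw [e1, e2] at h1
    exact h1
  have hsplit : ∫⁻ G, M G ∂(gM K (q + 1 + m + e) l) = ∫⁻ g, ∫⁻ h, ∫⁻ w, M (Fin.append (Fin.append g h) w)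
      ∂(gM K e l) ∂(gM K m l) ∂(gM K (q + 1) l) := by
    unfold gM
    rw [lintegral_append _ (q + 1 + m) e M hMm]
    have h : Measurable fun x : Fin (q + 1 + m) → Fin l → K => ∫⁻ y, M (Fin.append x y)
        ∂(Measure.pi fun _ : Fin e => gK K (Fin l)) := (hMm.comp append_meas).lintegral_prod_right'
    rw [lintegral_append _ (q + 1) m _ h]
  rw [hsplit]
  haveI : ∀ k : ℕ, IsProbabilityMeasure (gM K k l) := fun k => by unfold gM; infer_instance
  have hlow : ∀ᵐ g ∂(gM K (q + 1) l), (Module.finrank ℝ K : ℝ≥0∞) * ((q + 1 + m - l : ℕ) : ℝ≥0∞) *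
      (dist2 (fun i : Fin q => g (j.succAbove i)) (g j))⁻¹ ≤
      ∫⁻ h, ∫⁻ w, M (Fin.append (Fin.append g h) w) ∂(gM K e l) ∂(gM K m l) := by
    have hae := hD2 K (q + 1) (Fin l) (by simpa using hq)
    filter_upwards [hae] with g hg
    refine le_trans (hROW K q m l hq hl g hg j) (lintegral_mono fun h => ?_)
    calc lam g h j = ∫⁻ _, lam g h j ∂(gM K e l) := by rw [lintegral_const, measure_univ, mul_one]
      _ ≤ _ := lintegral_mono fun w => hMl g h w
  refine le_trans ?_ (lintegral_mono_ae hlow)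
  have hdm : Measurable fun g : Fin (q + 1) → Fin l → K =>
      (dist2 (fun i : Fin q => g (j.succAbove i)) (g j))⁻¹ := by
    have h0 : Measurable (fun p : (Fin l → K) × (Fin q → Fin l → K) => dist2 p.2 p.1) := dist2_meas
    have h1 : Measurable fun g : Fin (q + 1) → Fin l → K => ((g j, fun i : Fin q => g (j.succAbove i)) :
      (Fin l → K) × (Fin q → Fin l → K)) := by fun_prop
    have h2 := h0.comp h1
    simp only [Function.comp_def] at h2
    exact h2.inv
  rw [lintegral_const_mul _ hdm]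
  refine mul_le_mul_right ?_ _
  unfold gM
  rw [lintegral_insertNth (gK K (Fin l)) q j _ hdm]
  simp only [Fin.insertNth_apply_same, Fin.insertNth_apply_succAbove]
  refine abs4 _ _ _ ?_
  filter_upwards [hD2 K q (Fin l) (by simpa using (by omega : q ≤ l))] with S hS
  exact hD1 K q l S hS hc

end

end Pool.Agent.X19.RS
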