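import Pool.Agent.X19.SS.Stm2
import Pool.Agent.X28.SS.MP

/-!
# No algorithm with the sketch `(Om, A Om, A* A Om)` beats the randomized SVD with the same embedding
-/

set_option autoImplicit false

open MeasureTheory
open scoped ENNReal Matrix

namespace Pool.Agent.X19.RS

open Pool.Agent.X19.SS

variable {K : Type} [RCLike K]

/-- the unitary group -/
abbrev UG (K : Type) [RCLike K] (m : ℕ) := Matrix.unitaryGroup (Fin m) K

noncomputable local instance (m : ℕ) : MeasurableSpace (UG K m) := borel _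

local instance (m : ℕ) : BorelSpace (UG K m) := ⟨rfl⟩

instance compactSpaceU (m : ℕ) : CompactSpace (UG K m) := by
  have hcl : IsClosed ((Matrix.unitaryGroup (Fin m) K : Set (Matrix (Fin m) (Fin m) K))) := by
    have : (Matrix.unitaryGroup (Fin m) K : Set (Matrix (Fin m) (Fin m) K)) =
        {A | A * star A = 1} := by
      ext A
      exact Matrix.mem_unitaryGroup_iff
    rw [this]
    exact isClosed_eq (continuous_id.mul continuous_star) continuous_const
  have hsub : (Matrix.unitaryGroup (Fin m) K : Set (Matrix (Fin m) (Fin m) K)) ⊆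
      Set.pi Set.univ (fun _ : Fin m => Set.pi Set.univ (fun _ : Fin m => Metric.closedBall (0 : K) 1)) := by
    intro A hA i _ j _
    rw [mem_closedBall_zero_iff]
    exact entry_norm_bound_of_unitary hA i j
  have hc : IsCompact (Set.pi Set.univ
      (fun _ : Fin m => Set.pi Set.univ (fun _ : Fin m => Metric.closedBall (0 : K) 1))) :=
    isCompact_univ_pi fun _ => isCompact_univ_pi fun _ => isCompact_closedBall _ _
  exact isCompact_iff_compactSpace.mp (hc.of_isClosed_subset hcl hsub)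

/-- squared Frobenius norm as a trace -/
theorem frob2_eq {m k : ℕ} (M : Matrix (Fin m) (Fin k) K) :
    frob2 M = ENNReal.ofReal (RCLike.re (Matrix.trace (Mᴴ * M))) := by
  have h1 : RCLike.re (Matrix.trace (Mᴴ * M)) = ∑ i, ∑ j, ‖M i j‖ ^ 2 := by
    rw [Matrix.trace]
    simp only [Matrix.diag_apply, Matrix.mul_apply, Matrix.conjTranspose_apply, map_sum]
    rw [Finset.sum_comm]
    refine Finset.sum_congr rfl fun i _ => Finset.sum_congr rfl fun j _ => ?_
    rw [RCLike.star_def, RCLike.conj_mul]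
    norm_cast
  rw [h1, ENNReal.ofReal_sum_of_nonneg (fun i _ => Finset.sum_nonneg fun j _ => by positivity)]
  unfold frob2
  refine Finset.sum_congr rfl fun i _ => ?_
  rw [ENNReal.ofReal_sum_of_nonneg (fun j _ => by positivity)]
  refine Finset.sum_congr rfl fun j _ => ?_
  rw [← ofReal_norm, ENNReal.ofReal_pow (norm_nonneg _)]

/-- left unitary invariance -/
theorem frob2_unitary {m k : ℕ} (U : UG K m) (M : Matrix (Fin m) (Fin k) K) :
    frob2 ((U : Matrix (Fin m) (Fin m) K)ᴴ * M) = frob2 M := by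
  rw [frob2_eq, frob2_eq, Matrix.conjTranspose_mul, Matrix.conjTranspose_conjTranspose]
  congr 3
  rw [Matrix.mul_assoc, ← Matrix.mul_assoc (U : Matrix (Fin m) (Fin m) K)]
  have h := Matrix.mem_unitaryGroup_iff.1 U.2
  rw [Matrix.star_eq_conjTranspose] at h
  rw [h, Matrix.one_mul]

/-- the parallelogram inequality -/
theorem frob2_par {m k : ℕ} (X Y Z D : Matrix (Fin m) (Fin k) K) (h : X - Y = 2 • D) :
    2 * frob2 D ≤ frob2 (X - Z) + frob2 (Y - Z) := by
  unfold frob2
  rw [Finset.mul_sum, ← Finset.sum_add_distrib]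
  refine Finset.sum_le_sum fun i _ => ?_
  rw [Finset.mul_sum, ← Finset.sum_add_distrib]
  refine Finset.sum_le_sum fun j _ => ?_
  have h1 : X i j - Y i j = 2 * D i j := by
    have := congrFun (congrFun h i) j
    simpa [two_smul, two_mul] using this
  have e : ∀ x : K, ‖x‖ₑ ^ 2 = ENNReal.ofReal (‖x‖ ^ 2) := fun x => by
    rw [← ofReal_norm, ENNReal.ofReal_pow (norm_nonneg _)]
  simp only [Matrix.sub_apply]
  rw [e, e, e, ← ENNReal.ofReal_add (by positivity) (by positivity),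
    show (2 : ℝ≥0∞) = ENNReal.ofReal 2 by simp, ← ENNReal.ofReal_mul (by norm_num)]
  apply ENNReal.ofReal_le_ofReal
  have h2 := parallelogram_law_with_norm K (X i j - Z i j) (Y i j - Z i j)
  have h3 : X i j - Z i j - (Y i j - Z i j) = 2 * D i j := by rw [← h1]; ring
  rw [h3, norm_mul, RCLike.norm_two] at h2
  nlinarith [norm_nonneg (X i j - Z i j + (Y i j - Z i j)), norm_nonneg (D i j)]

/-- squared error of the randomized SVD: the best approximation of `A` by matrices whose columns are in the range of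
the sketch `A Om`. -/
noncomputable def err {d n l : ℕ} (A : Matrix (Fin d) (Fin n) K) (Om : Matrix (Fin n) (Fin l) K) : ℝ≥0∞ :=
  ⨅ C : Matrix (Fin l) (Fin n) K, frob2 (A - A * Om * C)

/-- the reflection -/
theorem exists_refl {d n l : ℕ} (A : Matrix (Fin d) (Fin n) K) (Om : Matrix (Fin n) (Fin l) K) :
    ∃ W : UG K d, (W : Matrix (Fin d) (Fin d) K)ᴴ * (A * Om) = A * Om ∧
      ∃ D : Matrix (Fin d) (Fin n) K, A - (W : Matrix (Fin d) (Fin d) K)ᴴ * A = 2 • D ∧ err A Om ≤ frob2 D := by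
  obtain ⟨P, hP⟩ := Pool.Agent.X28.SS.t_MP K d l (A * Om)
  set Q : Matrix (Fin d) (Fin d) K := A * Om * P with hQ
  have hQQ : Q * Q = Q := by
    rw [hQ, ← Matrix.mul_assoc, hP.h1]
  have hQs : Qᴴ = Q := hP.h3
  have hQY : Q * (A * Om) = A * Om := hP.h1
  have hW : (2 • Q - 1) * (2 • Q - 1) = (1 : Matrix (Fin d) (Fin d) K) := by
    rw [sub_mul, mul_sub, mul_sub, smul_mul_smul_comm, hQQ, one_mul, mul_one, mul_one]
    module
  have hWs : (2 • Q - 1)ᴴ = 2 • Q - 1 := by
    rw [Matrix.conjTranspose_sub, Matrix.conjTranspose_one, Matrix.conjTranspose_nsmul, hQs]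
  refine ⟨⟨2 • Q - 1, ?_⟩, ?_, A - Q * A, ?_, ?_⟩
  · rw [Matrix.mem_unitaryGroup_iff, Matrix.star_eq_conjTranspose, hWs, hW]
  · change (2 • Q - 1)ᴴ * (A * Om) = A * Om
    rw [hWs, Matrix.sub_mul, Matrix.smul_mul, hQY, Matrix.one_mul]
    module
  · change A - (2 • Q - 1)ᴴ * A = 2 • (A - Q * A)
    rw [hWs, Matrix.sub_mul, Matrix.smul_mul, Matrix.one_mul]
    module
  · unfold err
    refine iInf_le_of_le (P * A) (le_of_eq ?_)
    rw [hQ, Matrix.mul_assoc (A * Om)]

/-- the loss of the algorithm on `Uᴴ A` -/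
noncomputable def N {d n l : ℕ} (ALG : Matrix (Fin n) (Fin l) K → Matrix (Fin d) (Fin l) K →
    Matrix (Fin n) (Fin l) K → Matrix (Fin d) (Fin n) K) (A : Matrix (Fin d) (Fin n) K)
    (Om : Matrix (Fin n) (Fin l) K) (U : Matrix (Fin d) (Fin d) K) : ℝ≥0∞ :=
  frob2 (Uᴴ * A - ALG Om (Uᴴ * A * Om) ((Uᴴ * A)ᴴ * (Uᴴ * A * Om)))

theorem N_pair {d n l : ℕ} (ALG : Matrix (Fin n) (Fin l) K → Matrix (Fin d) (Fin l) K →
    Matrix (Fin n) (Fin l) K → Matrix (Fin d) (Fin n) K) (A : Matrix (Fin d) (Fin n) K)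
    (Om : Matrix (Fin n) (Fin l) K) :
    ∃ W : UG K d, ∀ U : UG K d, 2 * err A Om ≤ N ALG A Om U + N ALG A Om (W * U : UG K d) := by
  obtain ⟨W, hW1, D, hD, hDe⟩ := exists_refl A Om
  refine ⟨W, fun U => ?_⟩
  have hU : ∀ V : UG K d, (V : Matrix (Fin d) (Fin d) K) * (V : Matrix (Fin d) (Fin d) K)ᴴ = 1 := by
    intro V
    have h := Matrix.mem_unitaryGroup_iff.1 V.2
    rwa [Matrix.star_eq_conjTranspose] at h
  have h1 : ((W * U : UG K d) : Matrix (Fin d) (Fin d) K)ᴴ * A * Om =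
      (U : Matrix (Fin d) (Fin d) K)ᴴ * A * Om := by
    change ((W : Matrix (Fin d) (Fin d) K) * (U : Matrix (Fin d) (Fin d) K))ᴴ * A * Om = _
    rw [Matrix.conjTranspose_mul, Matrix.mul_assoc, Matrix.mul_assoc, hW1, Matrix.mul_assoc]
  have h2 : ∀ V : UG K d, ((V : Matrix (Fin d) (Fin d) K)ᴴ * A)ᴴ * ((V : Matrix (Fin d) (Fin d) K)ᴴ * A * Om) =
      Aᴴ * A * Om := by
    intro V
    rw [Matrix.conjTranspose_mul, Matrix.conjTranspose_conjTranspose, Matrix.mul_assoc ((V : Matrix (Fin d) (Fin d) K)ᴴ) A Om,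
      ← Matrix.mul_assoc (Aᴴ * (V : Matrix (Fin d) (Fin d) K)), Matrix.mul_assoc Aᴴ, hU V, Matrix.mul_one,
      Matrix.mul_assoc]
  unfold N
  rw [h2, h2, h1]
  have h3 : (U : Matrix (Fin d) (Fin d) K)ᴴ * A - ((W * U : UG K d) : Matrix (Fin d) (Fin d) K)ᴴ * A =
      2 • ((U : Matrix (Fin d) (Fin d) K)ᴴ * D) := by
    change (U : Matrix (Fin d) (Fin d) K)ᴴ * A -
      ((W : Matrix (Fin d) (Fin d) K) * (U : Matrix (Fin d) (Fin d) K))ᴴ * A = _
    rw [Matrix.conjTranspose_mul, Matrix.mul_assoc, ← Matrix.mul_sub, hD, Matrix.mul_smul]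
  refine le_trans ?_ (frob2_par _ _ _ _ h3)
  rw [frob2_unitary]
  gcongr

end Pool.Agent.X19.RS
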