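import Pool.Agent.X19.RS.Avg

set_option autoImplicit false

open MeasureTheory
open scoped ENNReal Matrix

namespace Pool.Agent.X19.RS

open Pool.Agent.X19.SS

variable {K : Type} [RCLike K]

/-- `|A - [A]_q|_F^2`: the squared distance of `A` to the matrices of rank at most `q`. -/
noncomputable def tailq {d n : ℕ} (q : ℕ) (A : Matrix (Fin d) (Fin n) K) : ℝ≥0∞ :=
  ⨅ (B : Matrix (Fin d) (Fin n) K) (_ : B.rank ≤ q), frob2 (A - B)

theorem tailq_unitary {d n : ℕ} (q : ℕ) (A : Matrix (Fin d) (Fin n) K) (U : UG K d) :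
    tailq q ((U : Matrix (Fin d) (Fin d) K)ᴴ * A) ≤ tailq q A := by
  unfold tailq
  refine le_iInf fun B => le_iInf fun hB => ?_
  refine iInf_le_of_le ((U : Matrix (Fin d) (Fin d) K)ᴴ * B) (iInf_le_of_le ?_ (le_of_eq ?_))
  · exact le_trans (Matrix.rank_mul_le_right _ _) hB
  · rw [← Matrix.mul_sub, frob2_unitary]

theorem rank_unitary {d n : ℕ} (A : Matrix (Fin d) (Fin n) K) (U : UG K d) :
    ((U : Matrix (Fin d) (Fin d) K)ᴴ * A).rank = A.rank := by
  apply le_antisymm (Matrix.rank_mul_le_right _ _)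
  have h := Matrix.mem_unitaryGroup_iff.1 U.2
  rw [Matrix.star_eq_conjTranspose] at h
  have h2 : (U : Matrix (Fin d) (Fin d) K) * ((U : Matrix (Fin d) (Fin d) K)ᴴ * A) = A := by
    rw [← Matrix.mul_assoc, h, Matrix.one_mul]
  calc A.rank = ((U : Matrix (Fin d) (Fin d) K) * ((U : Matrix (Fin d) (Fin d) K)ᴴ * A)).rank := by rw [h2]
    _ ≤ _ := Matrix.rank_mul_le_right _ _

/-- the worst-case ratio of an algorithm -/
noncomputable def worst {n l d : ℕ} {Θ : Type} [MeasurableSpace Θ] (μ : Measure Θ)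
    (Om : Θ → Matrix (Fin n) (Fin l) K) (q r : ℕ)
    (ALG : Matrix (Fin n) (Fin l) K → Matrix (Fin d) (Fin l) K → Matrix (Fin n) (Fin l) K →
      Matrix (Fin d) (Fin n) K) : ℝ≥0∞ :=
  ⨆ (A : Matrix (Fin d) (Fin n) K) (_ : A.rank = r),
    (∫⁻ θ, frob2 (A - ALG (Om θ) (A * Om θ) (Aᴴ * (A * Om θ))) ∂μ) / tailq q A

/-- the worst-case ratio of the randomized SVD -/
noncomputable def worstSVD {n l : ℕ} (d : ℕ) {Θ : Type} [MeasurableSpace Θ] (μ : Measure Θ)
    (Om : Θ → Matrix (Fin n) (Fin l) K) (q r : ℕ) : ℝ≥0∞ :=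
  ⨆ (A : Matrix (Fin d) (Fin n) K) (_ : A.rank = r), (∫⁻ θ, err A (Om θ) ∂μ) / tailq q A

theorem main [MeasurableSpace K] [BorelSpace K] {n l d : ℕ} {Θ : Type} [MeasurableSpace Θ] (μ : Measure Θ)
    [IsProbabilityMeasure μ] (Om : Θ → Matrix (Fin n) (Fin l) K)
    (hOm : Measurable fun θ => fun (i : Fin n) (j : Fin l) => Om θ i j) (q r : ℕ)
    (ALG : Matrix (Fin n) (Fin l) K → Matrix (Fin d) (Fin l) K → Matrix (Fin n) (Fin l) K →
      Matrix (Fin d) (Fin n) K)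
    (hALG : Measurable fun s : (Fin n → Fin l → K) × (Fin d → Fin l → K) × (Fin n → Fin l → K) =>
      fun (i : Fin d) (k : Fin n) => ALG (Matrix.of s.1) (Matrix.of s.2.1) (Matrix.of s.2.2) i k) :
    worstSVD d μ Om q r ≤ worst μ Om q r ALG := by
  unfold worstSVD
  refine iSup_le fun A => iSup_le fun hA => ?_
  refine le_trans (ENNReal.div_le_div_right (avg ALG hALG A μ Om hOm) _) ?_
  rw [ENNReal.iSup_div]
  refine iSup_le fun U => ?_
  unfold worst
  refine le_iSup_of_le ((U : Matrix (Fin d) (Fin d) K)ᴴ * A) (le_iSup_of_le ?_ ?_)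
  · rw [rank_unitary, hA]
  · refine ENNReal.div_le_div le_rfl (tailq_unitary q A U)

end Pool.Agent.X19.RS
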